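import Mathlib
import Pool.Agent.Y210.EF.Vec
import Pool.Agent.Y939.NC.Reg

set_option autoImplicit false

/-!
# The SHGH conjecture: explicit open sets, one explicit surface, all fields

`AlmostRegular` vectors of multiplicities (`Pool.Agent.Y939.NC`) are those which are regular on some
of the points and at most `1` at the others; `Regular` are: constant vectors on `k ≥ 37` (or
`k = 21`) points, the vectors of numbers `m` and `m + 1` on `k ≥ N0` points (or on `4 N ≥ 144`,
`4 ^ (j + 2)`, `9 * 4 ^ (j + 1)`, `13 * 4 ^ j` points), those with at most `r` different values in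
`[1, μ]` if `40000 r μ ^ 2 ≤ ∑ v i ^ 2`, and all those with values at most `μ` if
`25000 (μ + 1) ^ 2 ≤ ∑ v i`, or `μ ≥ 2` and `150 μ ^ 3 ≤ ∑ v i`. A class `(d; w)` is `Tractable` if it
is below a regular vector (`Below`) or if finitely many reflections carry it to a good standard class
(`Good`). At general complex points these classes have `h⁰ = max (0, χ)`.

1. For an almost regular vector `w` with `c = ∑ (w i + 1).choose 2 ≥ 3` there is a polynomial `Φ ≠ 0`
   with INTEGRAL coefficients in the `2 n` affine coordinates of `n` points, of total degree at most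
   `2 c √(2 c)` and height at most `(c!) ^ 2 * 4 ^ (c √(2 c))`, such that for EVERY field `L`, of any
   characteristic, all `n` points `Y` over `L` with `Φ(Y) ≠ 0` have `h⁰ = max (0, χ)` in EVERY degree.
2. For every tractable class `(d; w)` there is such a polynomial of degree at most `r d` and height at
   most `r! 2 ^ (r d)`, `r = min ((d + 2).choose 2) c`.
   In both cases `Φ ≠ 0` over every field of characteristic zero or larger than the bound `H` for the
   height, with counts of the exceptional configurations, and `Φ ≠ 0` at the explicit points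
   `(T ^ E ^ (2 i) : T ^ E ^ (2 i + 1) : 1)`, `E > B`, `T > H` (`Controls`).
3. At the points with the real coordinates `exp (2 ^ (k / 2 n))`, `k < 2 n`, ALL tractable classes have
   `h⁰ = max (0, χ)`.
-/

namespace Pool.Agent.Results.MP_70e04f_ag.ExplicitSurface

open MvPolynomial Pool.Agent.Y939.NC

section defs
variable {L : Type} [Field L]

/-- `H⁰(D)` for `D = d H - ∑ w i E i`: the forms of degree `d` which vanish to order at least `w i` at
the points `(Y i 0 : Y i 1 : 1)`. -/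
noncomputable def sections {n : ℕ} (Y : Fin n → Fin 2 → L) (d : ℕ) (w : Fin n → ℕ) :
    Submodule L (MvPolynomial (Fin 3) L) :=
  homogeneousSubmodule (Fin 3) L d ⊓ Submodule.restrictScalars L
    (⨅ i : Fin n, Ideal.span
      ({X 0 - C (Y i 0) * X 2, X 1 - C (Y i 1) * X 2} : Set (MvPolynomial (Fin 3) L)) ^ (w i))

/-- `h⁰(D)` -/
noncomputable def hZero {n : ℕ} (Y : Fin n → Fin 2 → L) (d : ℕ) (w : Fin n → ℕ) : ℤ :=
  (Module.finrank L ↥(sections Y d w) : ℤ)

/-- The value at `Y` of a polynomial with integral coefficients in the coordinates of `n` points. -/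
noncomputable def value {n : ℕ} (Φ : MvPolynomial (Fin n × Fin 2) ℤ) (Y : Fin n → Fin 2 → L) : L :=
  eval (fun ij : Fin n × Fin 2 => Y ij.1 ij.2) (Φ.map (Int.castRingHom L))

end defs

/-- The Euler characteristic. -/
def chi {n : ℕ} (d : ℕ) (w : Fin n → ℕ) : ℤ :=
  ((d + 2).choose 2 : ℤ) - ∑ i, ((w i + 1).choose 2 : ℤ)

/-- The sum of the absolute values of the coefficients. -/
noncomputable def height {n : ℕ} (Φ : MvPolynomial (Fin n × Fin 2) ℤ) : ℕ :=
  ∑ s ∈ Φ.support, (Φ.coeff s).natAbs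

/-- The number `c = ∑ w i (w i + 1) / 2` of the conditions. -/
def conds {n : ℕ} (w : Fin n → ℕ) : ℕ := ∑ i, (w i + 1).choose 2

/-- `Φ ≠ 0` has degree at most `B` and height at most `H`. Over every field of characteristic zero or
larger than `H` it is not zero, at most `B |S| ^ (2 n - 1)` of the configurations with coordinates in a
finite set `S` are zeros of `Φ`, and in characteristic zero the points
`(T ^ E ^ (2 i) : T ^ E ^ (2 i + 1) : 1)`, `E > B`, `T > H`, are not. -/
def Controls {n : ℕ} (Φ : MvPolynomial (Fin n × Fin 2) ℤ) (B H : ℕ) : Prop :=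
  Φ ≠ 0 ∧ Φ.totalDegree ≤ B ∧ height Φ ≤ H ∧
    (∀ (L : Type) [Field L], (CharZero L ∨ ∃ p : ℕ, CharP L p ∧ H < p) →
      Φ.map (Int.castRingHom L) ≠ 0 ∧
      ∀ S : Finset L, Set.ncard {Y : Fin n × Fin 2 → L | (∀ ij, Y ij ∈ S) ∧
        value Φ (fun i j => Y (i, j)) = 0} * S.card ≤ B * S.card ^ (2 * n)) ∧
    ∀ E T : ℕ, B < E → H < T → ∀ (L : Type) [Field L] [CharZero L],
      value Φ (fun (i : Fin n) (j : Fin 2) => (T : L) ^ E ^ (2 * (i : ℕ) + (j : ℕ))) ≠ 0

/-- The `n` points with the affine coordinates `exp (2 ^ (k / (2 n)))`, `k = 0, 1, …, 2 n - 1`. -/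
noncomputable def realPoints (n : ℕ) : Fin n → Fin 2 → ℝ := fun i j =>
  Real.exp ((2 : ℝ) ^ (((2 * (i : ℕ) + (j : ℕ) : ℕ) : ℝ) / (2 * n)))

/-- The class `(d; w)` is standard: `d ≥ w i + w j + w k`. -/
def Standard {n : ℕ} (d : ℕ) (w : Fin n → ℕ) : Prop :=
  ∀ i j k : Fin n, i ≠ j → i ≠ k → j ≠ k → w i + w j + w k ≤ d

/-- The reflection of the class `a = (d; w)`, `d H - ∑ w l E l`, in the class
`H - E (i 0) - E (i 1) - E (i 2)`: with `δ = d - w (i 0) - w (i 1) - w (i 2)`, the numbers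
`d`, `w (i 0)`, `w (i 1)`, `w (i 2)` are increased by `δ`. -/
def reflect {n : ℕ} (i : Fin 3 → Fin n) (a : ℤ × (Fin n → ℤ)) : ℤ × (Fin n → ℤ) :=
  (a.1 + (a.1 - a.2 (i 0) - a.2 (i 1) - a.2 (i 2)),
    fun l => a.2 l + if l = i 0 ∨ l = i 1 ∨ l = i 2 then a.1 - a.2 (i 0) - a.2 (i 1) - a.2 (i 2)
      else 0)

/-- Finitely many reflections carry `(d; w)` to `(d'; w')`. -/
def Carries {n : ℕ} (d : ℕ) (w : Fin n → ℕ) (d' : ℕ) (w' : Fin n → ℕ) : Prop :=
  Relation.ReflTransGen
    (fun a b : ℤ × (Fin n → ℤ) => ∃ i : Fin 3 → Fin n, Function.Injective i ∧ b = reflect i a)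
    ((d : ℤ), fun l => (w l : ℤ)) ((d' : ℤ), fun l => (w' l : ℤ))

/-- Tractable classes: those below a regular vector, and those which finitely many reflections carry
to a good standard class. -/
def Tractable (N0 : ℕ) {n : ℕ} (d : ℕ) (w : Fin n → ℕ) : Prop :=
  Below N0 d w ∨ (4 ≤ n ∧ ∃ (d' : ℕ) (w' : Fin n → ℕ), Carries d w d' w' ∧ Standard d' w' ∧
    Good N0 d' w')

theorem hZero_of {L : Type} [Field L] {n : ℕ} {Y : Fin n → Fin 2 → L} {d : ℕ} {w : Fin n → ℕ}
    (h : Pool.Agent.Y210.EF.ED L w Y d) : hZero Y d w = max 0 (chi d w) := by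
  have h1 : Module.finrank L ↥(sections Y d w) =
      Nat.choose (d + 2) 2 - ∑ i, Nat.choose (w i + 1) 2 := h
  have h2 : ∑ i, ((w i + 1).choose 2 : ℤ) = ((∑ i, Nat.choose (w i + 1) 2 : ℕ) : ℤ) := by
    push_cast
    rfl
  unfold hZero chi
  rw [h1, h2]
  omega

theorem controls_of {n : ℕ} {Φ : MvPolynomial (Fin n × Fin 2) ℤ} {B H : ℕ} (h1 : Φ ≠ 0)
    (h2 : Φ.totalDegree ≤ B) (h3 : Pool.Agent.Y210.EF.l1 Φ ≤ H) : Controls Φ B H :=
  ⟨h1, h2, h3, fun L _ hL => Pool.Agent.Y210.EF.val_count h1 h2 h3 L hL,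
    fun E T hE hT L _ _ => Pool.Agent.Y210.EF.val_kron h1 h2 h3 hE hT L⟩

/-- **Main result.** -/
theorem result : ∃ N0 : ℕ, ∀ n : ℕ, 1 ≤ n →
    -- almost regular vectors: all degrees
    (∀ w : Fin n → ℕ, AlmostRegular N0 w → 3 ≤ conds w →
      ∃ Φ : MvPolynomial (Fin n × Fin 2) ℤ,
        Controls Φ (2 * conds w * Nat.sqrt (2 * conds w))
          ((conds w).factorial ^ 2 * 4 ^ (conds w * Nat.sqrt (2 * conds w))) ∧
        ∀ (L : Type) [Field L] (Y : Fin n → Fin 2 → L), value Φ Y ≠ 0 →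
          ∀ d : ℕ, hZero Y d w = max 0 (chi d w)) ∧
    -- tractable classes
    (∀ (d : ℕ) (w : Fin n → ℕ), Tractable N0 d w →
      (∃ Φ : MvPolynomial (Fin n × Fin 2) ℤ,
        Controls Φ (min ((d + 2).choose 2) (conds w) * d)
          ((min ((d + 2).choose 2) (conds w)).factorial *
            2 ^ (min ((d + 2).choose 2) (conds w) * d)) ∧
        ∀ (L : Type) [Field L] (Y : Fin n → Fin 2 → L), value Φ Y ≠ 0 →
          hZero Y d w = max 0 (chi d w)) ∧
      -- the explicit points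
      hZero (realPoints n) d w = max 0 (chi d w)) := by
  obtain ⟨N0, hN0⟩ := reg_exp
  refine ⟨N0, fun n hn => ?_⟩
  obtain ⟨K, _, _, P, hP⟩ := Pool.Agent.TH442.NF.exists_generic n
  refine ⟨fun w hw hc => ?_, fun d w hw => ?_⟩
  · obtain ⟨Φ, h1, h2, h3, h4⟩ := Pool.Agent.Y210.EF.spread_all (w := w) hc ∅ (Or.inl rfl)
      (fun d _ => almost_exp hN0 hw hP d)
    exact ⟨Φ, controls_of h1 h2 h3, fun L _ Y hY d =>
      hZero_of (h4 L Y (by rw [← Pool.Agent.Y210.EF.val_eq]; exact hY) d (Set.notMem_empty d))⟩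
  · have hED : Pool.Agent.Y210.EF.ED K w P d := by
      rcases hw with h | ⟨hn4, d', w', hcar, hs, hG⟩
      · exact below_exp hN0 h hP
      · exact Pool.Agent.TH442.NF.up_enef hP hcar (Pool.Agent.TH442.NF.enef_of_std hn4 P hs)
          (good_exp hN0 hn4 hs hG hP)
    obtain ⟨Φ, h1, h2, h3, h4⟩ := Pool.Agent.Y210.EF.one_ed hED
    rw [← pow_mul, mul_comm d] at h3
    have key : ∀ (L : Type) [Field L] (Y : Fin n → Fin 2 → L), value Φ Y ≠ 0 →
        hZero Y d w = max 0 (chi d w) := fun L _ Y hY =>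
      hZero_of (h4 L Y (by rw [← Pool.Agent.Y210.EF.val_eq]; exact hY))
    exact ⟨⟨Φ, controls_of h1 h2 h3, key⟩, key ℝ (realPoints n)
      (Pool.Agent.Y210.EF.val_real hn h1)⟩

end Pool.Agent.Results.MP_70e04f_ag.ExplicitSurface
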